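import Mathlib
import Pool.Agent.H7R2.LG.Dense

set_option autoImplicit false

namespace Pool.Agent.Results.MP_11d263_co.DenseEvenCycles

/-- `D(k) = 4k + 2 - 2⌊k/8⌋` for odd `k`, `D(k) = 4k + 4 - ⌊k/4⌋` for even `k`. -/
def D (k : ℕ) : ℕ := if Odd k then 4 * k + 2 - 2 * (k / 8) else 4 * k + 4 - k / 4

/-- For every `k ≥ 4` there is `c > 0` with `ex(n, C_{2k}) ≥ c n ^ (1 + 3 / D(k))` for all
sufficiently large `n`. -/
theorem result : ∀ k : ℕ, 4 ≤ k → ∃ c : ℝ, 0 < c ∧ ∀ᶠ n : ℕ in Filter.atTop,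
    c * (n : ℝ) ^ (1 + 3 / (D k : ℝ)) ≤
      (SimpleGraph.extremalNumber n (SimpleGraph.cycleGraph (2 * k)) : ℝ) := by
  classical
  intro k hk
  have key : ∃ c : ℝ, 0 < c ∧ ∀ᶠ n : ℕ in Filter.atTop,
      ∃ G : SimpleGraph (Fin n), ((2 * k : ℕ) : ℕ∞) < G.egirth ∧
        c * (n : ℝ) ^ (1 + 3 / (D k : ℝ)) ≤ (G.edgeSet.ncard : ℝ) := by
    by_cases ho : Odd k
    · have := Pool.Agent.H7R2.LG.dense_odd k ho
      rwa [D, if_pos ho]
    · have := Pool.Agent.H7R2.LG.dense_four k hk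
      rwa [D, if_neg ho]
  obtain ⟨c, hc, h⟩ := key
  refine ⟨c, hc, ?_⟩
  filter_upwards [h] with n hn
  obtain ⟨H, h1, hE⟩ := hn
  refine hE.trans ?_
  have hfree : (SimpleGraph.cycleGraph (2 * k)).Free H := by
    intro hcon
    rw [SimpleGraph.cycleGraph_isContained_iff (by omega)] at hcon
    obtain ⟨v, w, hw, hl⟩ := hcon
    have h2 : H.egirth ≤ w.length := hw.egirth_le_length
    rw [hl] at h2
    exact absurd h1 (not_lt.2 h2)
  have h3 := SimpleGraph.card_edgeFinset_le_extremalNumber hfree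
  rw [Fintype.card_fin] at h3
  rw [Set.ncard_eq_toFinset_card']
  exact_mod_cast h3

end Pool.Agent.Results.MP_11d263_co.DenseEvenCycles
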